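import Pool.Agent.Helper98.DISC.GoalsA
import Pool.Agent.Helper98.DISC.GoalsB

set_option autoImplicit false

open MeasureTheory Set Filter Topology

noncomputable section

namespace Pool.Agent.Helper29.DISC

open Pool.Agent.Helper98.DISC

/-- `y_1 = 1/z` -/
lemma y1 (hRR : S_RR) (hDIF : S_DIF) {z : ℂ} (hz : z ≠ 0) : yk 1 z = z⁻¹ := by
  by_cases h : ∀ m : ℤ, z ≠ m
  · exact (hRR z h).2.1
  push Not at h
  obtain ⟨m, hm⟩ := h
  have hc1 : ContinuousAt (yk 1) z :=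
    (hDIF 1 z (by have := norm_pos_iff.2 hz; push_cast; linarith)).continuousAt
  have hc2 : ContinuousAt (fun w : ℂ => w⁻¹) z := continuousAt_inv₀ hz
  have hg : Tendsto (fun t : ℝ => z + t * Complex.I) (𝓝[≠] 0) (𝓝 z) := by
    have : Tendsto (fun t : ℝ => z + t * Complex.I) (𝓝 0) (𝓝 (z + ((0 : ℝ) : ℂ) * Complex.I)) := by
      apply Continuous.tendsto
      fun_prop
    simp only [Complex.ofReal_zero, zero_mul, add_zero] at this
    exact this.mono_left nhdsWithin_le_nhds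
  have h1 := hc1.tendsto.comp hg
  have h2 := hc2.tendsto.comp hg
  refine tendsto_nhds_unique h1 (h2.congr' ?_)
  filter_upwards [self_mem_nhdsWithin] with t ht
  have ht' : t ≠ 0 := ht
  refine ((hRR (z + t * Complex.I) ?_).2.1).symm
  intro n hn
  have := congrArg Complex.im hn
  rw [hm] at this
  simp at this
  exact ht' this

lemma hol_y (hRR : S_RR) (hDIF : S_DIF) (hDCY : S_DCY) (j : ℕ) (hj : 1 ≤ j) :
    Hol ((j : ℝ) - 1) (yk j) := by
  refine ⟨by have : (1 : ℝ) ≤ j := by exact_mod_cast hj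
             linarith, fun z hz => hDIF j z (by linarith), ?_⟩
  rcases Nat.lt_or_ge j 2 with h | h
  · obtain rfl : j = 1 := by omega
    refine ⟨1, 0, fun z hz => ?_⟩
    rw [y1 hRR hDIF (norm_pos_iff.1 hz), norm_inv, inv_mul_cancel₀ hz.ne']
  · obtain ⟨C, r, hC⟩ := hDCY j h
    refine ⟨C, max r 1, fun z hz => ?_⟩
    have h1 : 1 ≤ ‖z‖ := ((le_max_right _ _).trans_lt hz).le
    refine le_trans ?_ (hC z ((le_max_left _ _).trans_lt hz))
    exact mul_le_mul_of_nonneg_left (le_self_pow₀ h1 (by omega)) (norm_nonneg _)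

lemma hol_zy (hDIF : S_DIF) (hDCY : S_DCY) (j : ℕ) (hj : 2 ≤ j) :
    Hol ((j : ℝ) - 1) (fun z => z * yk j z) := by
  refine ⟨by have : (2 : ℝ) ≤ j := by exact_mod_cast hj
             linarith, fun z hz => differentiableAt_id.mul (hDIF j z (by linarith)), ?_⟩
  obtain ⟨C, r, hC⟩ := hDCY j hj
  refine ⟨C, max r 1, fun z hz => ?_⟩
  have h1 : 1 ≤ ‖z‖ := ((le_max_right _ _).trans_lt hz).le
  refine le_trans ?_ (hC z ((le_max_left _ _).trans_lt hz))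
  rw [norm_mul]
  calc ‖z‖ * ‖yk j z‖ * ‖z‖ = ‖yk j z‖ * ‖z‖ ^ 2 := by ring
    _ ≤ ‖yk j z‖ * ‖z‖ ^ (2 * j) :=
        mul_le_mul_of_nonneg_left (pow_le_pow_right₀ h1 (by omega)) (norm_nonneg _)

lemma hol_mono {r r' : ℝ} {f : ℂ → ℂ} (hf : Hol r f) (h : r ≤ r') : Hol r' f :=
  ⟨hf.1.trans h, fun z hz => hf.2.1 z (h.trans_lt hz), hf.2.2⟩

lemma hol_shift {r : ℝ} {f : ℂ → ℂ} (hf : Hol r f) (c : ℂ) : Hol (r + ‖c‖) (fun z => f (z + c)) := by
  obtain ⟨h0, hd, C, r', hC⟩ := hf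
  have hn : ∀ z : ℂ, ‖z‖ - ‖c‖ ≤ ‖z + c‖ := by
    intro z
    have := norm_sub_le (z + c) c
    rw [add_sub_cancel_right] at this
    linarith
  refine ⟨by positivity, fun z hz => ?_, 2 * C, max (r' + ‖c‖) (2 * ‖c‖), fun z hz => ?_⟩
  · have h1 : r < ‖z + c‖ := by have := hn z; linarith
    exact (hd _ h1).comp z (by fun_prop : DifferentiableAt ℂ (fun z : ℂ => z + c) z)
  · have h1 : r' + ‖c‖ < ‖z‖ := (le_max_left _ _).trans_lt hz
    have h2 : 2 * ‖c‖ < ‖z‖ := (le_max_right _ _).trans_lt hz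
    have h3 := hn z
    have h4 := hC (z + c) (by linarith)
    calc ‖f (z + c)‖ * ‖z‖ ≤ ‖f (z + c)‖ * (2 * ‖z + c‖) :=
          mul_le_mul_of_nonneg_left (by linarith) (norm_nonneg _)
      _ = 2 * (‖f (z + c)‖ * ‖z + c‖) := by ring
      _ ≤ 2 * C := by linarith

lemma hol_sub {r : ℝ} {f g : ℂ → ℂ} (hf : Hol r f) (hg : Hol r g) :
    Hol r (fun z => f z - g z) := by
  obtain ⟨h0, hd, C, r', hC⟩ := hf
  obtain ⟨-, hd', C', r'', hC'⟩ := hg
  refine ⟨h0, fun z hz => (hd z hz).sub (hd' z hz), C + C', max r' r'', fun z hz => ?_⟩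
  have h1 := hC z ((le_max_left _ _).trans_lt hz)
  have h2 := hC' z ((le_max_right _ _).trans_lt hz)
  calc ‖f z - g z‖ * ‖z‖ ≤ (‖f z‖ + ‖g z‖) * ‖z‖ :=
        mul_le_mul_of_nonneg_right (norm_sub_le _ _) (norm_nonneg _)
    _ ≤ C + C' := by linarith

lemma circ {r ρ φ : ℝ} {f : ℂ → ℂ} (hf : Hol r f) (hρ : r < ρ) :
    CircleIntegrable (fun z => f z * Complex.exp (2 * Complex.I * z * φ)) 0 ρ := by
  have h0 : 0 ≤ ρ := (hf.1.trans_lt hρ).le
  apply ContinuousOn.circleIntegrable h0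
  intro z hz
  have hz' : ‖z‖ = ρ := by simpa using hz
  have h1 : ContinuousAt f z := (hf.2.1 z (by rw [hz']; exact hρ)).continuousAt
  exact (h1.mul (by fun_prop)).continuousWithinAt

lemma Cc_add {r ρ φ : ℝ} {f g : ℂ → ℂ} (hf : Hol r f) (hg : Hol r g) (hρ : r < ρ) :
    Cc ρ (fun z => f z + g z) φ = Cc ρ f φ + Cc ρ g φ := by
  unfold Cc
  rw [← mul_add, ← circleIntegral.integral_add (circ hf hρ) (circ hg hρ)]
  congr 2
  ext z
  ring

lemma Cc_sub {r ρ φ : ℝ} {f g : ℂ → ℂ} (hf : Hol r f) (hg : Hol r g) (hρ : r < ρ) :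
    Cc ρ (fun z => f z - g z) φ = Cc ρ f φ - Cc ρ g φ := by
  unfold Cc
  rw [← mul_sub, ← circleIntegral.integral_sub (circ hf hρ) (circ hg hρ)]
  congr 2
  ext z
  ring

lemma Cc_mul (ρ φ : ℝ) (a : ℂ) (f : ℂ → ℂ) :
    Cc ρ (fun z => a * f z) φ = a * Cc ρ f φ := by
  unfold Cc
  have : (fun z => a * f z * Complex.exp (2 * Complex.I * z * φ)) =
      fun z => a * (f z * Complex.exp (2 * Complex.I * z * φ)) := by ext z; ring
  rw [this, circleIntegral.integral_const_mul]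
  ring

lemma Cc_congr {ρ φ : ℝ} (hρ : 0 ≤ ρ) {f g : ℂ → ℂ} (h : ∀ z : ℂ, ‖z‖ = ρ → f z = g z) :
    Cc ρ f φ = Cc ρ g φ := by
  unfold Cc
  congr 1
  apply circleIntegral.integral_congr hρ
  intro z hz
  have hz' : ‖z‖ = ρ := by simpa using hz
  simp only [h z hz']

lemma hol_zero (r : ℝ) (hr : 0 ≤ r) : Hol r (fun _ => 0) :=
  ⟨hr, fun _ _ => differentiableAt_const _, 0, 0, fun z _ => by simp⟩

lemma hol_mul {r : ℝ} {f g : ℂ → ℂ} (hf : Hol r f) (hg : Hol r g) :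
    Hol r (fun z => f z * g z) := by
  obtain ⟨h0, hd, C, r', hC⟩ := hf
  obtain ⟨-, hd', C', r'', hC'⟩ := hg
  refine ⟨h0, fun z hz => (hd z hz).mul (hd' z hz), |C| * |C'|, max (max r' r'') 1, fun z hz => ?_⟩
  have h1 := hC z ((le_max_left _ _).trans_lt ((le_max_left _ _).trans_lt hz))
  have h2 := hC' z ((le_max_right _ _).trans_lt ((le_max_left _ _).trans_lt hz))
  have h3 : 1 < ‖z‖ := (le_max_right _ _).trans_lt hz
  rw [norm_mul]
  calc ‖f z‖ * ‖g z‖ * ‖z‖ ≤ ‖f z‖ * ‖g z‖ * (‖z‖ * ‖z‖) := by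
        apply mul_le_mul_of_nonneg_left _ (by positivity)
        nlinarith
    _ = (‖f z‖ * ‖z‖) * (‖g z‖ * ‖z‖) := by ring
    _ ≤ |C| * |C'| := mul_le_mul (h1.trans (le_abs_self _)) (h2.trans (le_abs_self _))
        (by positivity) (abs_nonneg _)

lemma Cc_sum {r ρ φ : ℝ} {ι : Type} (s : Finset ι) (f : ι → ℂ → ℂ) (hf : ∀ i ∈ s, Hol r (f i))
    (hρ : r < ρ) :
    Cc ρ (fun z => ∑ i ∈ s, f i z) φ = ∑ i ∈ s, Cc ρ (f i) φ := by
  unfold Cc
  rw [← Finset.mul_sum, ← circleIntegral.integral_fun_sum (fun i hi => circ (hf i hi) hρ)]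
  congr 2
  ext z
  rw [Finset.sum_mul]

/-- the coefficient of `t^(n+2)` in S_ZZ -/
lemma coeffZZ (hZZ : S_ZZ) (hRR : S_RR) (n : ℕ) {z : ℂ} (hz : ∀ m : ℤ, z ≠ m) :
    ((n : ℂ) + 2 + z) * yk (n + 2) (z + 1) - (z + 1 - (n + 2)) * yk (n + 2) z =
      -∑ x ∈ Finset.HasAntidiagonal.antidiagonal n,
        (yk (x.1 + 1) (z + 1) - yk (x.1 + 1) z) * (yk (x.2 + 1) (z + 1) - yk (x.2 + 1) z) := by
  have hz1 : ∀ m : ℤ, z + 1 ≠ m := by
    intro m hm
    apply hz (m - 1)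
    push_cast
    rw [← hm]
    ring
  have h0 : yk 0 z = 0 := (hRR z hz).1
  have h0' : yk 0 (z + 1) = 0 := (hRR (z + 1) hz1).1
  have h := congrArg (PowerSeries.coeff (n + 2)) (hZZ z hz)
  have hth : ∀ f : PowerSeries ℂ, PowerSeries.coeff (n + 2) (th f) =
      ((n : ℂ) + 2) * PowerSeries.coeff (n + 2) f := by
    intro f
    unfold th
    rw [PowerSeries.coeff_succ_X_mul, PowerSeries.coeff_derivative]
    push_cast
    ring
  have hy : ∀ (k : ℕ) (w : ℂ), PowerSeries.coeff k (yz w) = yk k w := fun _ _ => rfl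
  have hd1 : ∀ x : ℕ × ℕ, ((Function.Embedding.prodMap ⟨Nat.succ, Nat.succ_injective⟩
      ⟨Nat.succ, Nat.succ_injective⟩) x).1 = x.1 + 1 := fun _ => rfl
  have hd2 : ∀ x : ℕ × ℕ, ((Function.Embedding.prodMap ⟨Nat.succ, Nat.succ_injective⟩
      ⟨Nat.succ, Nat.succ_injective⟩) x).2 = x.2 + 1 := fun _ => rfl
  simp only [map_add, map_sub, map_zero, hth, add_mul, PowerSeries.coeff_C_mul, pow_two, hy] at h
  rw [PowerSeries.coeff_mul, Finset.Nat.antidiagonal_succ_succ'] at h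
  simp only [Finset.sum_cons, Finset.sum_map, map_sub, hy, h0, h0', hd1, hd2] at h
  linear_combination h

/-- the translates -/
def Bt (j : ℕ) (ζ : ℂ) : ℂ := yk j (ζ + 1 / 2) - yk j (ζ + -(1 / 2))

lemma norm_half : ‖(1 / 2 : ℂ)‖ = 1 / 2 := by simp

lemma norm_half' : ‖(-(1 / 2) : ℂ)‖ = 1 / 2 := by simp

lemma hol_Bt (hRR : S_RR) (hDIF : S_DIF) (hDCY : S_DCY) (j : ℕ) (hj : 1 ≤ j) {R : ℝ}
    (hR : (j : ℝ) - 1 / 2 ≤ R) : Hol R (Bt j) := by
  have h := hol_y hRR hDIF hDCY j hj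
  have h1 := hol_shift h (1 / 2)
  have h2 := hol_shift h (-(1 / 2))
  rw [norm_half] at h1
  rw [norm_half'] at h2
  exact hol_mono (hol_sub h1 h2) (by linarith)

lemma Cc_Bt (hSHF : S_SHF) (hRR : S_RR) (hDIF : S_DIF) (hDCY : S_DCY) (j : ℕ) (hj : 1 ≤ j) {ρ : ℝ}
    (hρ : (j : ℝ) - 1 / 2 < ρ) (φ : ℝ) :
    Cc ρ (Bt j) φ = -(2 * Complex.I) * Real.sin φ * Cc ρ (yk j) φ := by
  have h := hol_y hRR hDIF hDCY j hj
  have h1 := hol_shift h (1 / 2)
  have h2 := hol_shift h (-(1 / 2))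
  have e1 := hSHF _ ρ φ (1 / 2) (yk j) h (by rw [norm_half]; linarith)
  have e2 := hSHF _ ρ φ (-(1 / 2)) (yk j) h (by rw [norm_half']; linarith)
  rw [norm_half] at h1
  rw [norm_half'] at h2
  have e3 := Cc_sub (φ := φ) h1 h2 (by linarith : (j : ℝ) - 1 + 1 / 2 < ρ)
  change Cc ρ (fun z => yk j (z + 1 / 2) - yk j (z + -(1 / 2))) φ = _
  rw [e3, e1, e2, Complex.ofReal_sin, Complex.sin]
  have a1 : -(2 * Complex.I * (1 / 2) * (φ : ℂ)) = -(φ : ℂ) * Complex.I := by ring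
  have a2 : -(2 * Complex.I * -(1 / 2) * (φ : ℂ)) = (φ : ℂ) * Complex.I := by ring
  rw [a1, a2]
  linear_combination (Complex.exp (-(φ : ℂ) * Complex.I) - Complex.exp ((φ : ℂ) * Complex.I)) *
    Cc ρ (yk j) φ * Complex.I_mul_I

lemma nonint (n : ℕ) {ζ : ℂ} (hζ : ‖ζ‖ = (n : ℝ) + 4) : ∀ m : ℤ, ζ + -(1 / 2) ≠ m := by
  intro m hm
  have h1 : ζ = (((m : ℝ) + 1 / 2 : ℝ) : ℂ) := by
    push_cast
    linear_combination hm
  rw [h1, Complex.norm_real, Real.norm_eq_abs] at hζ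
  rcases abs_cases ((m : ℝ) + 1 / 2) with ⟨h2, _⟩ | ⟨h2, _⟩
  · rw [h2] at hζ
    have h3 : (2 * m + 1 : ℝ) = 2 * n + 8 := by linarith
    have h4 : 2 * m + 1 = 2 * (n : ℤ) + 8 := by exact_mod_cast h3
    omega
  · rw [h2] at hζ
    have h3 : (2 * m + 1 : ℝ) = -(2 * n + 8) := by linarith
    have h4 : 2 * m + 1 = -(2 * (n : ℤ) + 8) := by exact_mod_cast h3
    omega

lemma mainId (hCNV : S_CNV) (hSHF : S_SHF) (hZZ : S_ZZ) (hRR : S_RR) (hDIF : S_DIF)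
    (hDCY : S_DCY) (n : ℕ) (φ : ℝ) :
    2 * ((n : ℂ) + 1) * Real.cos φ * Cc ((n : ℝ) + 4) (yk (n + 2)) φ -
      Real.sin φ * (2 * Complex.I * Cc ((n : ℝ) + 4) (fun z => z * yk (n + 2) z) φ) =
    8 * Complex.I * ∑ x ∈ Finset.HasAntidiagonal.antidiagonal n, ∫ τ in (0 : ℝ)..φ,
      (Real.sin (φ - τ) * Cc ((n : ℝ) + 4) (yk (x.1 + 1)) (φ - τ)) *
        (Real.sin τ * Cc ((n : ℝ) + 4) (yk (x.2 + 1)) τ) := by
  have hn0 : (0 : ℝ) ≤ n := Nat.cast_nonneg n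
  set ρ : ℝ := (n : ℝ) + 4 with hρ
  have hY := hol_y hRR hDIF hDCY (n + 2) (by omega)
  have hG := hol_zy hDIF hDCY (n + 2) (by omega)
  have hr : (((n + 2 : ℕ) : ℝ) - 1) = (n : ℝ) + 1 := by push_cast; ring
  rw [hr] at hY hG
  have hA := hol_shift hY (1 / 2)
  have hB := hol_shift hY (-(1 / 2))
  have hA2 := hol_shift hG (1 / 2)
  have hB2 := hol_shift hG (-(1 / 2))
  rw [norm_half] at hA hA2
  rw [norm_half'] at hB hB2
  have eA := hSHF _ ρ φ (1 / 2) _ hY (by rw [norm_half, hρ]; linarith)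
  have eB := hSHF _ ρ φ (-(1 / 2)) _ hY (by rw [norm_half', hρ]; linarith)
  have eA2 := hSHF _ ρ φ (1 / 2) _ hG (by rw [norm_half, hρ]; linarith)
  have eB2 := hSHF _ ρ φ (-(1 / 2)) _ hG (by rw [norm_half', hρ]; linarith)
  have hρ1 : (n : ℝ) + 1 + 1 / 2 < ρ := by rw [hρ]; linarith
  have a1 : -(2 * Complex.I * (1 / 2) * (φ : ℂ)) = -(φ : ℂ) * Complex.I := by ring
  have a2 : -(2 * Complex.I * -(1 / 2) * (φ : ℂ)) = (φ : ℂ) * Complex.I := by ring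
  rw [a1] at eA eA2
  rw [a2] at eB eB2
  -- multiples
  have hmul : ∀ {r : ℝ} {f : ℂ → ℂ} (a : ℂ), Hol r f → Hol r (fun z => a * f z) := by
    intro r f a hf
    obtain ⟨h0, hd, C, r', hC⟩ := hf
    refine ⟨h0, fun z hz => (hd z hz).const_mul a, ‖a‖ * C, r', fun z hz => ?_⟩
    rw [norm_mul, mul_assoc]
    exact mul_le_mul_of_nonneg_left (hC z hz) (norm_nonneg a)
  have hadd : ∀ {r : ℝ} {f g : ℂ → ℂ}, Hol r f → Hol r g → Hol r (fun z => f z + g z) := by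
    intro r f g hf hg
    have := hol_sub hf (hmul (-1) hg)
    refine ⟨this.1, fun z hz => (hf.2.1 z hz).add (hg.2.1 z hz), ?_⟩
    obtain ⟨C, r', hC⟩ := this.2.2
    refine ⟨C, r', fun z hz => ?_⟩
    have h3 := hC z hz
    have h4 : f z - -1 * g z = f z + g z := by ring
    simp only [h4] at h3
    exact h3
  -- left side
  have eL : Cc ρ (fun ζ => ((n + 1 : ℂ) * yk (n + 2) (ζ + 1 / 2) +
        (ζ + 1 / 2) * yk (n + 2) (ζ + 1 / 2)) + ((n + 1 : ℂ) * yk (n + 2) (ζ + -(1 / 2)) -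
        (ζ + -(1 / 2)) * yk (n + 2) (ζ + -(1 / 2)))) φ =
      2 * ((n : ℂ) + 1) * Real.cos φ * Cc ρ (yk (n + 2)) φ -
      Real.sin φ * (2 * Complex.I * Cc ρ (fun z => z * yk (n + 2) z) φ) := by
    rw [Cc_add (hadd (hmul _ hA) hA2) (hol_sub (hmul _ hB) hB2) hρ1, Cc_add (hmul _ hA) hA2 hρ1,
      Cc_sub (hmul _ hB) hB2 hρ1, Cc_mul, Cc_mul, eA, eB, eA2, eB2, Complex.ofReal_cos,
      Complex.ofReal_sin, Complex.cos, Complex.sin]
    linear_combination (Complex.exp (-(φ : ℂ) * Complex.I) - Complex.exp ((φ : ℂ) * Complex.I)) *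
      Cc ρ (fun z => z * yk (n + 2) z) φ * Complex.I_mul_I
  -- identity on the circle
  have eI : Cc ρ (fun ζ => ((n + 1 : ℂ) * yk (n + 2) (ζ + 1 / 2) +
        (ζ + 1 / 2) * yk (n + 2) (ζ + 1 / 2)) + ((n + 1 : ℂ) * yk (n + 2) (ζ + -(1 / 2)) -
        (ζ + -(1 / 2)) * yk (n + 2) (ζ + -(1 / 2)))) φ =
      Cc ρ (fun ζ => -1 * ∑ x ∈ Finset.HasAntidiagonal.antidiagonal n,
        Bt (x.1 + 1) ζ * Bt (x.2 + 1) ζ) φ := by
    refine Cc_congr (by rw [hρ]; linarith) ?_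
    intro ζ hζ
    have h := coeffZZ hZZ hRR n (nonint n hζ)
    have e : ζ + -(1 / 2) + 1 = ζ + 1 / 2 := by ring
    rw [e] at h
    unfold Bt
    linear_combination h
  have hle : ∀ x ∈ Finset.HasAntidiagonal.antidiagonal n, x.1 ≤ n ∧ x.2 ≤ n := by
    intro x hx
    have := Finset.HasAntidiagonal.mem_antidiagonal.1 hx
    omega
  have hBt : ∀ j : ℕ, j ≤ n → Hol ((n : ℝ) + 1) (Bt (j + 1)) := by
    intro j hj
    have hj' : (j : ℝ) ≤ n := by exact_mod_cast hj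
    exact hol_Bt hRR hDIF hDCY (j + 1) (by omega) (by push_cast; linarith)
  have hρ2 : (n : ℝ) + 1 < ρ := by rw [hρ]; linarith
  have eR : Cc ρ (fun ζ => -1 * ∑ x ∈ Finset.HasAntidiagonal.antidiagonal n,
        Bt (x.1 + 1) ζ * Bt (x.2 + 1) ζ) φ =
      8 * Complex.I * ∑ x ∈ Finset.HasAntidiagonal.antidiagonal n, ∫ τ in (0 : ℝ)..φ,
      (Real.sin (φ - τ) * Cc ρ (yk (x.1 + 1)) (φ - τ)) *
        (Real.sin τ * Cc ρ (yk (x.2 + 1)) τ) := by
    rw [Cc_mul, Cc_sum (r := (n : ℝ) + 1) _ _ (fun x hx => hol_mul (hBt _ (hle x hx).1)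
      (hBt _ (hle x hx).2)) hρ2, Finset.mul_sum, Finset.mul_sum]
    apply Finset.sum_congr rfl
    intro x hx
    rw [hCNV _ ρ φ _ _ (hBt _ (hle x hx).1) (hBt _ (hle x hx).2) hρ2]
    have hj1 : (x.1 : ℝ) ≤ n := by exact_mod_cast (hle x hx).1
    have hj2 : (x.2 : ℝ) ≤ n := by exact_mod_cast (hle x hx).2
    have e : ∀ τ : ℝ, Cc ρ (Bt (x.1 + 1)) (φ - τ) * Cc ρ (Bt (x.2 + 1)) τ =
        -4 * ((Real.sin (φ - τ) * Cc ρ (yk (x.1 + 1)) (φ - τ)) *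
        (Real.sin τ * Cc ρ (yk (x.2 + 1)) τ)) := by
      intro τ
      rw [Cc_Bt hSHF hRR hDIF hDCY (x.1 + 1) (by omega) (by push_cast; rw [hρ]; linarith),
        Cc_Bt hSHF hRR hDIF hDCY (x.2 + 1) (by omega) (by push_cast; rw [hρ]; linarith)]
      linear_combination 4 * (Real.sin (φ - τ) * Cc ρ (yk (x.1 + 1)) (φ - τ)) *
        (Real.sin τ * Cc ρ (yk (x.2 + 1)) τ) * Complex.I_mul_I
    simp_rw [e]
    rw [intervalIntegral.integral_const_mul]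
    ring
  rw [← eL, eI, eR]

/-- packet ODE -/
theorem ode (hRAD : S_RAD) (hCNV : S_CNV) (hSHF : S_SHF) (hZZ : S_ZZ) (hRR : S_RR) (hDIF : S_DIF)
    (hDCY : S_DCY) : S_ODE := by
  have hH : ∀ m : ℕ, Hol (m : ℝ) (yk (m + 1)) := by
    intro m
    have := hol_y hRR hDIF hDCY (m + 1) (by omega)
    rwa [show (((m + 1 : ℕ) : ℝ) - 1) = (m : ℝ) by push_cast; ring] at this
  -- change of the radius
  have hF : ∀ (m : ℕ) (ρ : ℝ), (m : ℝ) < ρ → ∀ φ, Fm m φ =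
      -(Complex.I / 2) ^ (m + 1) * (2 * Complex.I) * Cc ρ (yk (m + 1)) φ := by
    intro m ρ hρ φ
    unfold Fm
    rw [(hRAD m ((m : ℝ) + 1) ρ φ _ (hH m) (by linarith) hρ).1]
  have hD : ∀ (m : ℕ) (ρ : ℝ), (m : ℝ) < ρ → ∀ φ, HasDerivAt (Fm m)
      (-(Complex.I / 2) ^ (m + 1) * (2 * Complex.I) *
        (2 * Complex.I * Cc ρ (fun z => z * yk (m + 1) z) φ)) φ := by
    intro m ρ hρ φ
    have h1 := (hRAD m ρ ρ φ _ (hH m) hρ hρ).2
    have h2 : Fm m = fun φ => -(Complex.I / 2) ^ (m + 1) * (2 * Complex.I) *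
        Cc ρ (yk (m + 1)) φ := by
      ext φ
      exact hF m ρ hρ φ
    rw [h2]
    have h3 : Cc ρ (fun z => 2 * Complex.I * z * yk (m + 1) z) φ =
        2 * Complex.I * Cc ρ (fun z => z * yk (m + 1) z) φ := by
      rw [← Cc_mul]
      congr 1
      ext z
      ring
    rw [h3] at h1
    exact h1.const_mul _
  refine ⟨?_, fun m φ => (hD m ((m : ℝ) + 1) (by linarith) φ).differentiableAt, ?_⟩
  · intro φ
    rw [hF 0 1 (by norm_num) φ]
    have e1 : Cc 1 (yk (0 + 1)) φ = Cc 1 (fun z => z⁻¹) φ := by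
      refine Cc_congr zero_le_one ?_
      intro z hz
      exact y1 hRR hDIF (norm_pos_iff.1 (by rw [hz]; norm_num))
    have e2 : Cc 1 (fun z => z⁻¹) φ = 1 := by
      unfold Cc
      have h3 : (∮ z in C((0 : ℂ), 1), z⁻¹ * Complex.exp (2 * Complex.I * z * φ)) =
          2 * Real.pi * Complex.I := by
        have h4 : DiffContOnCl ℂ (fun z : ℂ => Complex.exp (2 * Complex.I * z * φ))
            (Metric.ball 0 1) :=
          (Differentiable.diffContOnCl (by fun_prop))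
        have h5 := h4.circleIntegral_sub_inv_smul (w := 0) (by simp)
        simp only [sub_zero, smul_eq_mul, mul_zero, zero_mul, Complex.exp_zero, mul_one] at h5
        exact h5
      rw [h3]
      have : (2 * (Real.pi : ℂ) * Complex.I) ≠ 0 := Complex.two_pi_I_ne_zero
      exact inv_mul_cancel₀ this
    rw [e1, e2]
    linear_combination -Complex.I_mul_I
  · intro m φ hm
    obtain ⟨n, rfl⟩ : ∃ n, m = n + 1 := ⟨m - 1, by omega⟩
    have hn1 : ((n + 1 : ℕ) : ℝ) < (n : ℝ) + 4 := by push_cast; linarith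
    have h := mainId hCNV hSHF hZZ hRR hDIF hDCY n φ
    rw [(hD (n + 1) ((n : ℝ) + 4) hn1 φ).deriv, hF (n + 1) ((n : ℝ) + 4) hn1 φ,
      Nat.add_sub_cancel]
    have e : ∀ x ∈ Finset.HasAntidiagonal.antidiagonal n,
        (∫ τ in (0 : ℝ)..φ, (Real.sin (φ - τ) * Fm x.1 (φ - τ)) * (Real.sin τ * Fm x.2 τ)) =
        -4 * (Complex.I / 2) ^ (n + 2) * ∫ τ in (0 : ℝ)..φ,
          (Real.sin (φ - τ) * Cc ((n : ℝ) + 4) (yk (x.1 + 1)) (φ - τ)) *
            (Real.sin τ * Cc ((n : ℝ) + 4) (yk (x.2 + 1)) τ) := by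
      intro x hx
      have hx' := Finset.HasAntidiagonal.mem_antidiagonal.1 hx
      have hj1 : (x.1 : ℝ) ≤ n := by exact_mod_cast (by omega : x.1 ≤ n)
      have hj2 : (x.2 : ℝ) ≤ n := by exact_mod_cast (by omega : x.2 ≤ n)
      rw [← intervalIntegral.integral_const_mul]
      congr 1
      ext τ
      rw [hF x.1 ((n : ℝ) + 4) (by linarith), hF x.2 ((n : ℝ) + 4) (by linarith)]
      have hp : (Complex.I / 2) ^ (n + 2) = (Complex.I / 2) ^ (x.1 + 1) *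
          (Complex.I / 2) ^ (x.2 + 1) := by
        rw [← pow_add]
        congr 1
        omega
      rw [hp]
      linear_combination 4 * (Complex.I / 2) ^ (x.1 + 1) * (Complex.I / 2) ^ (x.2 + 1) *
        (Real.sin (φ - τ) * Cc ((n : ℝ) + 4) (yk (x.1 + 1)) (φ - τ)) *
            (Real.sin τ * Cc ((n : ℝ) + 4) (yk (x.2 + 1)) τ) * Complex.I_mul_I
    rw [Finset.sum_congr rfl e, ← Finset.mul_sum]
    have hc : ((n + 1 : ℕ) : ℂ) = (n : ℂ) + 1 := by push_cast; ring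
    rw [hc]
    set X := ∑ x ∈ Finset.HasAntidiagonal.antidiagonal n, ∫ τ in (0 : ℝ)..φ,
          (Real.sin (φ - τ) * Cc ((n : ℝ) + 4) (yk (x.1 + 1)) (φ - τ)) *
            (Real.sin τ * Cc ((n : ℝ) + 4) (yk (x.2 + 1)) τ)
    linear_combination ((Complex.I / 2) ^ (n + 1 + 1) * (2 * Complex.I)) * h +
      4 * (Complex.I / 2) ^ n * Complex.I ^ 2 * X * Complex.I_mul_I

end Pool.Agent.Helper29.DISC
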